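import Mathlib
import Pool.Agent.Helper99.DVK.Upper

/-!
MP_2c7009_nt, Q1 (answer: yes): for every de Vries-Komornik number `q` below the tribonacci number
`Q₃` the level set `L(q)` of the smallest univoque base has infinitely many accumulation points.

Sketch. Let `α` be the unique expansion of `1` in base `q`. Because `q` is isolated from the left in
the set of univoque bases, infinitely many prefixes of `α` are repeated with complemented digits
(`chain`). With `ω = 1 (complement of α)` and the prefixes `ω_N`, the numbers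
`x_{N,M} = (ω_N ω_M 0 1^∞)_q` have no univoque base below `q` (`lower`), have univoque bases
`p ↓ q` with expansions `ω_N ω_M ω_L ω` (`upper`), and accumulate at the infinitely many numbers
`x_N = (ω_N 0 1^∞)_q` (`assemble`).
-/

open Set Filter Topology

namespace Pool.Agent.Results.MP_2c7009_nt.DVKAccumulation

open Helper99.DVK

/-- For every de Vries-Komornik number `q < Q₃` (tribonacci number), the set `L(q)` of the `x > 0`
whose smallest univoque base is `q` has infinitely many accumulation points. -/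
theorem result (Q₃ : ℝ) (h0 : 0 < Q₃) (h1 : 1 / Q₃ + 1 / Q₃ ^ 2 + 1 / Q₃ ^ 3 = 1) (q : ℝ)
    (hq : IsDeVriesKomornik q) (hlt : q < Q₃) : (accPts (levelSet q)).Infinite := by
  obtain ⟨⟨hq1, -, α, hα1, hu⟩, q₀, ⟨hq₀, -⟩, hq₀q, hgap⟩ := hq
  have hval : val q α = 1 := hα1
  have hu' : ∀ e, val q e = 1 → e = α := hu
  have hcub : Q₃ ^ 3 = Q₃ ^ 2 + Q₃ + 1 := by
    field_simp at h1
    linarith
  have hQ2 : Q₃ < 2 := by
    by_contra hc
    push Not at hc
    nlinarith [mul_nonneg (sub_nonneg.2 hc) (sq_nonneg Q₃), mul_nonneg (sub_nonneg.2 hc) h0.le]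
  have hq2 : q < 2 := hlt.trans hQ2
  have hq0 : 0 < q := by linarith
  have hq1' : 0 < q - 1 := by linarith
  have hgold' : 1 < q * (q - 1) := by
    by_contra hc
    push Not at hc
    refine not_unique_small hq1 hc one_pos ?_ ⟨α, hval, hu⟩
    rw [lt_div_iff₀ hq1']; linarith
  have hqc : q ^ 3 < q ^ 2 + q + 1 := by
    have e : (Q₃ ^ 3 - Q₃ ^ 2 - Q₃ - 1) - (q ^ 3 - q ^ 2 - q - 1)
        = (Q₃ - q) * (Q₃ ^ 2 + Q₃ * q + q ^ 2 - (Q₃ + q) - 1) := by ring
    have h2 : 0 < Q₃ ^ 2 + Q₃ * q + q ^ 2 - (Q₃ + q) - 1 := by nlinarith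
    have h3 := mul_pos (sub_pos.2 hlt) h2
    linarith
  have hgold : q * (q - 1) * (q * (q - 1) - 1) ≤ 1 := by
    obtain ⟨y, hy⟩ : ∃ y, y = q * (q - 1) := ⟨_, rfl⟩
    rw [← hy] at hgold' ⊢
    have a1 : q * y < q + 1 := by rw [hy]; nlinarith
    have a2 : q * (y - 1) < 1 := by linarith
    have a3 : q + 1 < q * q := by rw [hy] at hgold'; linarith
    have a4 : (q * y) * (q * (y - 1)) < (q + 1) * 1 :=
      mul_lt_mul'' a1 a2 (by nlinarith) (by nlinarith)
    by_contra hc
    push Not at hc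
    nlinarith [mul_pos hq0 hq0]
  have hα : Uni α := uni_of_unique hq1 hq2 hval (fun e he => hu' e (he.trans hval))
  have hq₀1 : 1 ≤ q₀ := by
    have : closure (univoqueBases 1) ⊆ Ici (1 : ℝ) :=
      closure_minimal (fun r hr => hr.1.le) isClosed_Ici
    exact this hq₀
  obtain ⟨n₁, -, hn₁⟩ := chain (p := (q₀ + q) / 2) hα (by linarith) (by linarith) hq2.le hval
    (fun r hr hr' => by
      have : r ∈ Ioo q₀ q ∩ closure (univoqueBases 1) :=
        ⟨⟨by linarith [hr.1], hr.2⟩, subset_closure hr'⟩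
      rw [hgap] at this; exact this)
  exact assemble hα hq1 hq2 hval hgold hgold' ⟨n₁, fun n hn hg => (hn₁ n hn hg).1⟩
    (fun n hg hn => upper hα hq1 hq2 hval hg hn)

end Pool.Agent.Results.MP_2c7009_nt.DVKAccumulation
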